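import Pool.Agent.H52.Descent

/-!
# Galois representations for simply connected groups from arbitrary finite extensions

Let `K` be a number field, `G` a simply connected semisimple group over `K` (of any type and any form: inner, outer,
trialitarian, a product of restrictions of scalars) and `Π` an `L`-algebraic automorphic representation of `G`. The
dual group `Ĝ` is a semisimple group of adjoint type, i.e. the identity component of the automorphism group of its Lie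
algebra `𝔤`, and the Galois group acts on it through automorphisms `act g` of `𝔤` (which fix a pinning). An element
`(x, g)` of the `L`-group `Ĝ ⋊ Γ_K` is determined by `g` and by its action `x * act g` on `𝔤`. So a homomorphism
from a subgroup `H` of `Γ_K` to the `L`-group which commutes with the projections is the same as a homomorphism
`r : H → Aut 𝔤` such that `r g` lies in the coset `Ĝ * act g` for all `g` in `H`, and the Satake parameter
of `Π` at the place `v` gives for each Frobenius element `σ` at `v` a `Ĝ`-conjugacy class `C σ` in the coset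
`Ĝ * act σ` with `C (g * σ * g⁻¹) = act g * C σ * (act g)⁻¹`.

For a finite extension `F` of `K` let `r_F` be the homomorphism from `Γ_F` to the `L`-group which should belong to the
base change of `Π` to `F`. We show that `r_Π` exists over `K` as soon as it exists potentially with large image, with
a given place of `K` split off. Namely, let `F i` be finite extensions of `K`, of any degrees and not necessarily Galois,
for which `r_{F i}` exists and has large image on the group of some Galois extension `M i` of `K` which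
contains `F i` and `F i₀`. Then there is an admissible `R : Γ_K → ᴸG` whose restriction to the group of each
`F i` is conjugate to `r_{F i}` under `Ĝ`; it is right at all places `v` outside `S` for which some `F i` has a place
over `v` of degree one, and it is unique up to conjugation by `Ĝ`. So if each place outside `S` has such an `F i`
then the conjecture of Buzzard and Gee on `r_Π` holds for `Π`.

Large image means: (1) each bilinear map `𝔤 × 𝔤 → 𝔤` which is equivariant for the image is equivariant for `𝔤`, and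
(2) an automorphism of `𝔤` which preserves the classes `C σ` of the Frobenius elements of `Γ_M` lies in `Ĝ`. Both
are true if the image is Zariski dense in `Ĝ`.

No compatibility between the fields is needed, and their degrees are arbitrary. For `GL_n`, and for all groups `Ĝ` with a center, there is in general an
obstruction (of degree two, with values in the center), and the extension to `Γ_K` is not unique.

Idea of the proof: for `g` in `Γ_K` the representations `x ↦ r x` and `x ↦ r (g x g⁻¹)` of `Γ_M` on `𝔤` have the same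
trace by Chebotarev's theorem, so they are conjugate under `GL (𝔤)` by the theorem of Brauer and Nesbitt. If `A` is the
matrix then `A⁻¹ [A u, A v]` is a bilinear map which is equivariant for the image, hence for `𝔤`, i.e. `A ad(y) A⁻¹` is
a derivation of `𝔤`, and hence of the form `ad (θ y)`. This `θ` is an automorphism of `𝔤` which conjugates the
two homomorphisms. It is unique, so these automorphisms form a homomorphism `R` on `Γ_K`. By the condition on outer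
automorphisms `R g` lies in the right coset.
-/

set_option autoImplicit false
set_option linter.unusedSectionVars false

namespace Pool.Agent.Results.MP_666dc0_nt.SimplyConnectedDescent

open NumberField IsDedekindDomain
open Pool.Agent.W401.Cheb (GK IsFrob IsInert)

section defs

variable (K : Type) [Field K] (Ω 𝔤 : Type) [Field Ω] [LieRing 𝔤] [LieAlgebra Ω 𝔤]

/-- the dual group `Ĝ`, a normal subgroup of the group of all automorphisms of the Lie algebra `𝔤`, and the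
action of the Galois group of `K` on it, which is given by automorphisms `act g` of `𝔤` -/
structure LDatum where
  /-- the dual group -/
  G : Subgroup (𝔤 ≃ₗ[Ω] 𝔤)
  aut : ∀ φ ∈ G, ∀ x y : 𝔤, φ ⁅x, y⁆ = ⁅φ x, φ y⁆
  normal : ∀ ψ : 𝔤 ≃ₗ[Ω] 𝔤, (∀ x y : 𝔤, ψ ⁅x, y⁆ = ⁅ψ x, ψ y⁆) → ∀ φ ∈ G, ψ * φ * ψ⁻¹ ∈ G
  /-- the action of the Galois group -/
  act : GK K →* (𝔤 ≃ₗ[Ω] 𝔤)
  act_aut : ∀ g, ∀ x y : 𝔤, act g ⁅x, y⁆ = ⁅act g x, act g y⁆

variable {K Ω 𝔤}

/-- Satake parameters: for each (geometric Frobenius) element `σ` a `Ĝ`-conjugacy class `C σ` in the coset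
`Ĝ * act σ`, in a way compatible with conjugation -/
structure Satake (L : LDatum K Ω 𝔤) where
  /-- the class at `σ` -/
  C : GK K → Set (𝔤 ≃ₗ[Ω] 𝔤)
  coset : ∀ σ, ∀ x ∈ C σ, x * (L.act σ)⁻¹ ∈ L.G
  single : ∀ σ, ∀ x ∈ C σ, ∀ y ∈ C σ, ∃ γ ∈ L.G, y = γ * x * γ⁻¹
  conj_dual : ∀ σ, ∀ x ∈ C σ, ∀ γ ∈ L.G, γ * x * γ⁻¹ ∈ C σ
  conj : ∀ g σ, ∀ x ∈ C σ, L.act g * x * (L.act g)⁻¹ ∈ C (g * σ * g⁻¹)

/-- `r` is a semisimple continuous homomorphism from `H` to the `L`-group which commutes with the projections: `r` is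
multiplicative on `H`, `r x` lies in the coset `Ĝ * act x`, the coordinates of `r x` depend continuously on `x`, and
stable subspaces of `𝔤` have stable complements -/
structure Admissible [TopologicalSpace Ω] (L : LDatum K Ω 𝔤) (H : Subgroup (GK K)) (r : GK K → (𝔤 ≃ₗ[Ω] 𝔤)) :
    Prop where
  mul : ∀ x ∈ H, ∀ y ∈ H, r (x * y) = r x * r y
  coset : ∀ x ∈ H, r x * (L.act x)⁻¹ ∈ L.G
  cont : ∀ (u : 𝔤) (f : 𝔤 →ₗ[Ω] Ω), ContinuousOn (fun x => f (r x u)) (H : Set (GK K))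
  ss : ∀ W : Submodule Ω 𝔤, (∀ x ∈ H, ∀ w ∈ W, r x w ∈ W) →
    ∃ W' : Submodule Ω 𝔤, (∀ x ∈ H, ∀ w ∈ W', r x w ∈ W') ∧ IsCompl W W'

/-- a conjugate of `σ` fixes all elements of the field `F` -/
def ConjFixes (F : IntermediateField K (AlgebraicClosure K)) (σ : GK K) : Prop :=
  ∃ g : GK K, g⁻¹ * σ * g ∈ F.fixingSubgroup

variable [NumberField K]

/-- `r` is right at `σ`: trivial if `σ` is an inertia element, and in the Satake class if `σ` is a geometric Frobenius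
element, at a place outside `S` -/
def RightAt {L : LDatum K Ω 𝔤} (C : Satake L) (S : Set (HeightOneSpectrum (𝓞 K))) (r : GK K → (𝔤 ≃ₗ[Ω] 𝔤))
    (σ : GK K) : Prop :=
  ∀ v, v ∉ S → (IsInert v σ → r σ = 1) ∧ (IsFrob v σ⁻¹ → r σ ∈ C.C σ)

/-- The image of the group of `M` under `r` is large: each bilinear map `𝔤 × 𝔤 → 𝔤` which is equivariant for the
image is equivariant for the Lie algebra `𝔤`, and each automorphism of `𝔤` which preserves the Satake classes of the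
Frobenius elements of `Γ_M` outside `S` lies in `Ĝ`. -/
structure Large {L : LDatum K Ω 𝔤} (C : Satake L) (S : Set (HeightOneSpectrum (𝓞 K)))
    (M : IntermediateField K (AlgebraicClosure K)) (r : GK K → (𝔤 ≃ₗ[Ω] 𝔤)) : Prop where
  bilin : ∀ β : 𝔤 →ₗ[Ω] 𝔤 →ₗ[Ω] 𝔤, (∀ x ∈ M.fixingSubgroup, ∀ u v, r x (β u v) = β (r x u) (r x v)) →
    ∀ y u v : 𝔤, ⁅y, β u v⁆ = β ⁅y, u⁆ v + β u ⁅y, v⁆
  outer : ∀ φ : 𝔤 ≃ₗ[Ω] 𝔤, (∀ x y : 𝔤, φ ⁅x, y⁆ = ⁅φ x, φ y⁆) →
    (∀ v, v ∉ S → ∀ σ ∈ M.fixingSubgroup, IsFrob v σ⁻¹ → ∀ x ∈ C.C σ, φ * x * φ⁻¹ ∈ C.C σ) → φ ∈ L.G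

end defs

open Pool.Agent.H52.Descent Pool.Agent.H52.Rigid

section lemmas

variable {K : Type} [Field K] [NumberField K] {Ω 𝔤 : Type} [Field Ω] [LieRing 𝔤] [LieAlgebra Ω 𝔤]
  {L : LDatum K Ω 𝔤} {C : Satake L} {S : Set (HeightOneSpectrum (𝓞 K))}

theorem G_le (L : LDatum K Ω 𝔤) : L.G ≤ LieAut Ω 𝔤 := fun φ hφ => L.aut φ hφ

theorem act_mem (L : LDatum K Ω 𝔤) (g : GK K) : L.act g ∈ LieAut Ω 𝔤 := fun x y => L.act_aut g x y

theorem mem_of_coset {x y : 𝔤 ≃ₗ[Ω] 𝔤} (hy : y ∈ LieAut Ω 𝔤) (h : x * y⁻¹ ∈ L.G) : x ∈ LieAut Ω 𝔤 := by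
  have h1 := (LieAut Ω 𝔤).mul_mem (G_le L h) hy
  rwa [inv_mul_cancel_right] at h1

theorem trace_conj (γ x : 𝔤 ≃ₗ[Ω] 𝔤) : LinearMap.trace Ω 𝔤 (γ * x * γ⁻¹).toLinearMap =
    LinearMap.trace Ω 𝔤 x.toLinearMap := by
  have h := LinearMap.trace_conj' x.toLinearMap γ
  rw [← h]
  rfl

theorem trace_class {σ : GK K} {x y : 𝔤 ≃ₗ[Ω] 𝔤} (hx : x ∈ C.C σ) (hy : y ∈ C.C σ) :
    LinearMap.trace Ω 𝔤 x.toLinearMap = LinearMap.trace Ω 𝔤 y.toLinearMap := by
  obtain ⟨γ, -, rfl⟩ := C.single σ x hx y hy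
  exact (trace_conj γ x).symm

/-- an automorphism which moves one element of a class to an element of the class preserves it -/
theorem preserves {σ : GK K} {φ x : 𝔤 ≃ₗ[Ω] 𝔤} (hφ : φ ∈ LieAut Ω 𝔤) (hx : x ∈ C.C σ) (h : φ * x * φ⁻¹ ∈ C.C σ) :
    ∀ y ∈ C.C σ, φ * y * φ⁻¹ ∈ C.C σ := by
  intro y hy
  obtain ⟨γ, hγ, rfl⟩ := C.single σ x hx y hy
  have h1 := C.conj_dual σ _ h _ (L.normal φ (fun u v => hφ u v) γ hγ)
  have e : φ * γ * φ⁻¹ * (φ * x * φ⁻¹) * (φ * γ * φ⁻¹)⁻¹ = φ * (γ * x * γ⁻¹) * φ⁻¹ := by group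
  rwa [e] at h1

variable [TopologicalSpace Ω]

theorem Admissible.lie {H : Subgroup (GK K)} {r : GK K → (𝔤 ≃ₗ[Ω] 𝔤)} (h : Admissible L H r) :
    ∀ x ∈ H, r x ∈ LieAut Ω 𝔤 := fun x hx => mem_of_coset (act_mem L x) (h.coset x hx)

variable [IsTopologicalRing Ω] [FiniteDimensional Ω 𝔤]

theorem Admissible.trace {H : Subgroup (GK K)} {r : GK K → (𝔤 ≃ₗ[Ω] 𝔤)} (h : Admissible L H r) :
    Continuous fun x : H => LinearMap.trace Ω 𝔤 (r x).toLinearMap := by
  let b := Module.finBasis Ω 𝔤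
  have e : (fun x : H => LinearMap.trace Ω 𝔤 (r x).toLinearMap) =
      fun x : H => ∑ i, b.coord i (r x (b i)) := by
    funext x
    rw [LinearMap.trace_eq_matrix_trace Ω b, Matrix.trace]
    refine Finset.sum_congr rfl fun i _ => ?_
    rw [Matrix.diag_apply, LinearMap.toMatrix_apply]
    rfl
  rw [e]
  exact continuous_finsetSum _ fun i _ => continuousOn_iff_continuous_domRestrict.1 (h.cont (b i) (b.coord i))

variable [T2Space Ω]

theorem trace_two {H₁ H₂ : Subgroup (GK K)} (hS : S.Finite) (ho₁ : IsOpen (H₁ : Set (GK K)))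
    (ho₂ : IsOpen (H₂ : Set (GK K))) {r₁ r₂ : GK K → (𝔤 ≃ₗ[Ω] 𝔤)} (h₁ : Admissible L H₁ r₁) (h₂ : Admissible L H₂ r₂)
    (hp₁ : ∀ σ ∈ H₁, RightAt C S r₁ σ) (hp₂ : ∀ σ ∈ H₂, RightAt C S r₂ σ) (u : GK K) (hu₁ : u ∈ H₁) (hu₂ : u ∈ H₂) :
    LinearMap.trace Ω 𝔤 (r₁ u).toLinearMap = LinearMap.trace Ω 𝔤 (r₂ u).toLinearMap := by
  have hI : IsOpen ((H₁ ⊓ H₂ : Subgroup (GK K)) : Set (GK K)) := ho₁.inter ho₂
  refine Pool.Agent.X289.TF.cheb_eq hS hI
    (fun x : (H₁ ⊓ H₂ : Subgroup (GK K)) => LinearMap.trace Ω 𝔤 (r₁ x).toLinearMap)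
    (fun x => LinearMap.trace Ω 𝔤 (r₂ x).toLinearMap)
    (h₁.trace.comp (Continuous.subtype_mk continuous_subtype_val fun x => x.2.1))
    (h₂.trace.comp (Continuous.subtype_mk continuous_subtype_val fun x => x.2.2)) (fun v hv x hx => ?_)
    ⟨u, hu₁, hu₂⟩
  exact trace_class ((hp₁ x.1 x.2.1 v hv).2 hx) ((hp₂ x.1 x.2.2 v hv).2 hx)

theorem trace_cnj {H : Subgroup (GK K)} (hS : S.Finite) (ho : IsOpen (H : Set (GK K)))
    {r : GK K → (𝔤 ≃ₗ[Ω] 𝔤)} (h : Admissible L H r) (hp : ∀ σ ∈ H, RightAt C S r σ) (g u : GK K) (hu : u ∈ H)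
    (hu' : g * u * g⁻¹ ∈ H) :
    LinearMap.trace Ω 𝔤 (r u).toLinearMap = LinearMap.trace Ω 𝔤 (r (g * u * g⁻¹)).toLinearMap := by
  have hI := Pool.Agent.X289.TF.cInter_open ho ho g⁻¹
  have hIm : ∀ x : Pool.Agent.X289.TF.cInter H H g⁻¹, x.1 ∈ H ∧ g * x.1 * g⁻¹ ∈ H := fun x => by
    have := Pool.Agent.X289.TF.mem_cInter.1 x.2
    rwa [inv_inv] at this
  refine Pool.Agent.X289.TF.cheb_eq hS hI
    (fun x : Pool.Agent.X289.TF.cInter H H g⁻¹ => LinearMap.trace Ω 𝔤 (r x).toLinearMap)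
    (fun x => LinearMap.trace Ω 𝔤 (r (g * x * g⁻¹)).toLinearMap)
    (h.trace.comp (Continuous.subtype_mk continuous_subtype_val fun x => (hIm x).1))
    (h.trace.comp (Continuous.subtype_mk (((continuous_const_mul g).comp continuous_subtype_val).mul
      continuous_const) fun x => (hIm x).2)) (fun v hv x hx => ?_)
    ⟨u, Pool.Agent.X289.TF.mem_cInter.2 ⟨hu, by rwa [inv_inv]⟩⟩
  have h1 := (hp x.1 (hIm x).1 v hv).2 hx
  have h2 := (hp (g * x.1 * g⁻¹) (hIm x).2 v hv).2 (by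
    have := Pool.Agent.X289.TF.isFrob_conj' hx g⁻¹
    have e : (g * x.1 * g⁻¹)⁻¹ = (g⁻¹)⁻¹ * x.1⁻¹ * g⁻¹ := by group
    rw [e]
    exact this)
  have h3 := C.conj g x.1 _ h1
  rw [← trace_class h3 h2, trace_conj]

theorem local_of_ext {F : IntermediateField K (AlgebraicClosure K)} {r : GK K → (𝔤 ≃ₗ[Ω] 𝔤)}
    (hr : Admissible L ⊤ r) {r₁ : GK K → (𝔤 ≃ₗ[Ω] 𝔤)} (hp : ∀ σ ∈ F.fixingSubgroup, RightAt C S r₁ σ)
    {γ : 𝔤 ≃ₗ[Ω] 𝔤} (hγ : γ ∈ L.G) (h : ∀ x ∈ F.fixingSubgroup, r x = γ * r₁ x * γ⁻¹) {σ : GK K}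
    (hσ : ConjFixes F σ) : RightAt C S r σ := by
  obtain ⟨g, hg⟩ := hσ
  have e : σ = g * (g⁻¹ * σ * g) * g⁻¹ := by group
  have h1 := h _ hg
  have hm : MulOn ⊤ r := fun x hx y hy => hr.mul x hx y hy
  have h5 : r σ = r g * r (g⁻¹ * σ * g) * (r g)⁻¹ := by
    conv_lhs => rw [e]
    exact map_conj' hm trivial trivial
  refine fun v hv => ⟨fun hI => ?_, fun hF => ?_⟩
  · have h2 := (hp _ hg v hv).1 (Pool.Agent.X289.TF.isInert_conj' hI g)
    rw [h2, mul_one, mul_inv_cancel] at h1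
    rw [h5, h1, mul_one, mul_inv_cancel]
  · have h2 := (hp _ hg v hv).2 (by
      have := Pool.Agent.X289.TF.isFrob_conj' hF g
      have e : (g⁻¹ * σ * g)⁻¹ = g⁻¹ * σ⁻¹ * g := by group
      rw [e]
      exact this)
    have h3 := C.conj_dual _ _ h2 γ hγ
    rw [← h1] at h3
    have h4 := C.conj g _ _ h3
    rw [← e] at h4
    have h6 := C.conj_dual _ _ h4 _ (hr.coset g trivial)
    have e2 : r g * (L.act g)⁻¹ * (L.act g * r (g⁻¹ * σ * g) * (L.act g)⁻¹) * (r g * (L.act g)⁻¹)⁻¹ =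
        r g * r (g⁻¹ * σ * g) * (r g)⁻¹ := by group
    rw [e2, ← h5] at h6
    exact h6

end lemmas

/-- **Galois representations for simply connected groups from arbitrary finite extensions.** -/
theorem result (K : Type) [Field K] [NumberField K] (Ω : Type) [Field Ω] [CharZero Ω] [TopologicalSpace Ω]
    [IsTopologicalRing Ω] [T2Space Ω] (𝔤 : Type) [LieRing 𝔤] [LieAlgebra Ω 𝔤] [FiniteDimensional Ω 𝔤]
    [LieAlgebra.HasTrivialRadical Ω 𝔤] (L : LDatum K Ω 𝔤) (C : Satake L) (S : Set (HeightOneSpectrum (𝓞 K)))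
    (hS : S.Finite) (ι : Type) (F M : ι → IntermediateField K (AlgebraicClosure K)) (r : ι → GK K → (𝔤 ≃ₗ[Ω] 𝔤))
    (i₀ : ι) (hF : ∀ i, FiniteDimensional K (F i)) (hr : ∀ i, Admissible L (F i).fixingSubgroup (r i))
    (hp : ∀ i, ∀ σ ∈ (F i).fixingSubgroup, RightAt C S (r i) σ) (hM : ∀ i, IsGalois K (M i))
    (hFM : ∀ i, F i ≤ M i ∧ F i₀ ≤ M i) (hlarge : ∀ i, Large C S (M i) (r i)) :
    ∃ R : GK K → (𝔤 ≃ₗ[Ω] 𝔤), Admissible L ⊤ R ∧
      (∀ i, ∃ γ ∈ L.G, ∀ x ∈ (F i).fixingSubgroup, R x = γ * r i x * γ⁻¹) ∧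
      (∀ i σ, ConjFixes (F i) σ → RightAt C S R σ) ∧
      ∀ R' : GK K → (𝔤 ≃ₗ[Ω] 𝔤), Admissible L ⊤ R' → (∃ i, ∀ σ ∈ (F i).fixingSubgroup, RightAt C S R' σ) →
        ∃ γ ∈ L.G, ∀ x, R' x = γ * R x * γ⁻¹ := by
  have hkill : LieAlgebra.IsKilling Ω 𝔤 := inferInstance
  have hle : ∀ i, (M i).fixingSubgroup ≤ (F i).fixingSubgroup := fun i =>
    IntermediateField.fixingSubgroup_antitone (hFM i).1
  have hle₀ : ∀ i, (M i).fixingSubgroup ≤ (F i₀).fixingSubgroup := fun i =>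
    IntermediateField.fixingSubgroup_antitone (hFM i).2
  have hnorm : ∀ i, (M i).fixingSubgroup.Normal := fun i => by
    have := hM i
    exact (InfiniteGalois.normal_iff_isGalois (M i)).2 inferInstance
  have hopen : ∀ i, IsOpen ((F i).fixingSubgroup : Set (GK K)) := fun i => by
    have := hF i
    exact IntermediateField.fixingSubgroup_isOpen (F i)
  have hmul : ∀ i, MulOn (F i).fixingSubgroup (r i) := fun i x hx y hy => (hr i).mul x hx y hy
  have hss : ∀ i, SSOn (F i).fixingSubgroup (r i) := fun i => (hr i).ss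
  have hzar : ∀ i, ZarOn (M i).fixingSubgroup (r i) := fun i β hβ => (hlarge i).bilin β hβ
  -- the extension
  obtain ⟨R, hR1, hR2, hR3, hR4⟩ := exists_ext (hnorm i₀) (hle i₀) (hmul i₀) (hr i₀).lie (hss i₀) (hzar i₀)
    fun g x hx => trace_cnj hS (hopen i₀) (hr i₀) (hp i₀) g x (hle i₀ hx) (hle i₀ ((hnorm i₀).conj_mem x hx g))
  have hcoset : ∀ g, R g * (L.act g)⁻¹ ∈ L.G := by
    intro g
    have h1 : (L.act g)⁻¹ * R g ∈ LieAut Ω 𝔤 := (LieAut Ω 𝔤).mul_mem ((LieAut Ω 𝔤).inv_mem (act_mem L g)) (hR2 g)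
    have h2 : (L.act g)⁻¹ * R g ∈ L.G := by
      refine (hlarge i₀).outer _ (fun x y => h1 x y) fun v hv σ hσ hF => ?_
      have h3 := (hp i₀ σ (hle i₀ hσ) v hv).2 hF
      refine preserves h1 h3 ?_
      have h4 : g * σ * g⁻¹ ∈ (M i₀).fixingSubgroup := (hnorm i₀).conj_mem σ hσ g
      have h5 := (hp i₀ _ (hle i₀ h4) v hv).2 (by
        have := Pool.Agent.X289.TF.isFrob_conj' hF g⁻¹
        have e : (g * σ * g⁻¹)⁻¹ = (g⁻¹)⁻¹ * σ⁻¹ * g⁻¹ := by group
        rw [e]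
        exact this)
      have h6 := C.conj g⁻¹ _ _ h5
      have e : g⁻¹ * (g * σ * g⁻¹) * (g⁻¹)⁻¹ = σ := by group
      rw [e, map_inv, ← hR4 g σ hσ] at h6
      have e2 : (L.act g)⁻¹ * (R g * r i₀ σ * (R g)⁻¹) * (L.act g)⁻¹⁻¹ =
        (L.act g)⁻¹ * R g * r i₀ σ * ((L.act g)⁻¹ * R g)⁻¹ := by group
      rwa [e2] at h6
    have h3 := L.normal (L.act g) (L.act_aut g) _ h2
    have e : L.act g * ((L.act g)⁻¹ * R g) * (L.act g)⁻¹ = R g * (L.act g)⁻¹ := by group
    rwa [e] at h3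
  have hcont : ∀ (u : 𝔤) (f : 𝔤 →ₗ[Ω] Ω), Continuous fun x => f (R x u) := by
    intro u f
    rw [continuous_iff_continuousAt]
    intro g
    have h1 := (hr i₀).cont u (f ∘ₗ (R g).toLinearMap)
    have h2 : ContinuousAt (fun x : GK K => (f ∘ₗ (R g).toLinearMap) (r i₀ x u)) 1 :=
      h1.continuousAt ((hopen i₀).mem_nhds (one_mem _))
    have h3 : ContinuousAt (fun x : GK K => g⁻¹ * x) g := (continuous_const_mul _).continuousAt
    have h4 : ContinuousAt (fun x : GK K => (f ∘ₗ (R g).toLinearMap) (r i₀ (g⁻¹ * x) u)) g := by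
      refine ContinuousAt.comp (g := fun x : GK K => (f ∘ₗ (R g).toLinearMap) (r i₀ x u)) ?_ h3
      rwa [inv_mul_cancel]
    refine h4.congr ?_
    have h5 : ∀ᶠ x in nhds g, g⁻¹ * x ∈ (F i₀).fixingSubgroup := by
      refine h3.eventually ?_
      show ∀ᶠ y in nhds (g⁻¹ * g), y ∈ (F i₀).fixingSubgroup
      rw [inv_mul_cancel]
      exact (hopen i₀).mem_nhds (one_mem _)
    filter_upwards [h5] with x hx
    show f (R g (r i₀ (g⁻¹ * x) u)) = f (R x u)
    rw [← hR3 _ hx, ← LinearEquiv.mul_apply, ← hR1 g trivial _ trivial, mul_inv_cancel_left]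
  have hfin : (F i₀).fixingSubgroup.FiniteIndex := by
    have := Subgroup.quotient_finite_of_isOpen _ (hopen i₀)
    exact Subgroup.finiteIndex_of_finite_quotient
  have hRss : SSOn ⊤ R := by
    have h1 := Pool.Agent.H52.SSRep.maschke (F i₀).fixingSubgroup
      (ρ := MonoidHom.mk' R fun x y => hR1 x trivial y trivial) (by
        intro W hW
        obtain ⟨W', h2, h3⟩ := (hr i₀).ss W fun x hx w hw => by
          rw [← hR3 x hx]
          exact hW ⟨x, hx⟩ w hw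
        refine ⟨W', fun x w hw => ?_, h3⟩
        show R x w ∈ W'
        rw [hR3 x x.2]
        exact h2 x x.2 w hw)
    intro W hW
    obtain ⟨W', h2, h3⟩ := h1 W fun x w hw => hW x trivial w hw
    exact ⟨W', fun x _ w hw => h2 x w hw, h3⟩
  have hRadm : Admissible L ⊤ R := ⟨hR1, fun x _ => hcoset x, fun u f => (hcont u f).continuousOn, hRss⟩
  -- comparison with another homomorphism which is right on the group of `F i`
  have hcmp : ∀ (i : ι) (H : Subgroup (GK K)) (R' : GK K → (𝔤 ≃ₗ[Ω] 𝔤)), Admissible L H R' →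
      IsOpen (H : Set (GK K)) → (M i).fixingSubgroup ≤ H → (∀ σ ∈ H ⊓ (F i).fixingSubgroup, RightAt C S R' σ) →
      ∃ γ ∈ L.G, ∀ x ∈ (M i).fixingSubgroup, γ * r i x * γ⁻¹ = R' x := by
    intro i H R' h1 h2 h3 h4
    obtain ⟨φ, h5, h6⟩ := exists_conj (r := r i) (r' := R') (N := (M i).fixingSubgroup) ((hmul i).mono (hle i))
      (fun x hx y hy => h1.mul x (h3 hx) y (h3 hy)) (fun x hx => (hr i).lie x (hle i hx))
      (fun x hx => h1.lie x (h3 hx)) ((hss i).clifford (hnorm i) (hle i) (hmul i))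
      (SSOn.clifford (hnorm i) h3 h1.ss h1.mul) (hzar i) (fun x hx => by
        refine Pool.Agent.X289.TF.cheb_eq hS (h2.inter (hopen i) : IsOpen ((H ⊓ (F i).fixingSubgroup :
          Subgroup (GK K)) : Set (GK K)))
          (fun x : (H ⊓ (F i).fixingSubgroup : Subgroup (GK K)) => LinearMap.trace Ω 𝔤 (r i x).toLinearMap)
          (fun x => LinearMap.trace Ω 𝔤 (R' x).toLinearMap)
          ((hr i).trace.comp (Continuous.subtype_mk continuous_subtype_val fun x => x.2.2))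
          (h1.trace.comp (Continuous.subtype_mk continuous_subtype_val fun x => x.2.1)) (fun v hv x hx => ?_)
          ⟨x, h3 hx, hle i hx⟩
        exact trace_class ((hp i x.1 x.2.2 v hv).2 hx) ((h4 x.1 x.2 v hv).2 hx))
    refine ⟨φ, (hlarge i).outer φ (fun x y => h5 x y) fun v hv σ hσ hF => ?_, h6⟩
    have h7 := (hp i σ (hle i hσ) v hv).2 hF
    refine preserves h5 h7 ?_
    rw [h6 σ hσ]
    exact (h4 σ ⟨h3 hσ, hle i hσ⟩ v hv).2 hF
  have hext : ∀ i, ∃ γ ∈ L.G, ∀ x ∈ (F i).fixingSubgroup, R x = γ * r i x * γ⁻¹ := by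
    intro i
    obtain ⟨γ, hγ, h1⟩ := hcmp i (F i₀).fixingSubgroup (r i₀) (hr i₀) (hopen i₀) (hle₀ i)
      fun σ hσ => hp i₀ σ hσ.1
    refine ⟨γ, hγ, ext_unique (hnorm i) (hle i) (r := fun x => γ * r i x * γ⁻¹) (r' := R) ((hmul i).conj' γ)
      (hR1.mono le_top) (fun x hx => (LieAut Ω 𝔤).mul_mem ((LieAut Ω 𝔤).mul_mem (G_le L hγ) ((hr i).lie x hx))
        ((LieAut Ω 𝔤).inv_mem (G_le L hγ))) (fun x _ => hR2 x) ((hzar i).conj (G_le L hγ)) fun x hx => ?_⟩
    show R x = γ * r i x * γ⁻¹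
    rw [h1 x hx]
    exact hR3 x (hle₀ i hx)
  refine ⟨R, hRadm, hext, fun i σ hσ => ?_, fun R' hR' ⟨i, hi⟩ => ?_⟩
  · obtain ⟨γ, hγ, h1⟩ := hext i
    exact local_of_ext hRadm (hp i) hγ h1 hσ
  · obtain ⟨γ, hγ, h1⟩ := hext i
    obtain ⟨δ, hδ, h2⟩ := hcmp i ⊤ R' hR' isOpen_univ le_top fun σ hσ => hi σ hσ.2
    have h3 : δ * γ⁻¹ ∈ L.G := L.G.mul_mem hδ (L.G.inv_mem hγ)
    refine ⟨δ * γ⁻¹, h3, fun x => ?_⟩
    refine ext_unique (H := ⊤) (hnorm i) le_top (r := fun x => (δ * γ⁻¹) * R x * (δ * γ⁻¹)⁻¹) (r' := R')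
      (hR1.conj' _) hR'.mul (fun x hx => (LieAut Ω 𝔤).mul_mem ((LieAut Ω 𝔤).mul_mem (G_le L h3) (hR2 x))
        ((LieAut Ω 𝔤).inv_mem (G_le L h3))) (fun x hx => hR'.lie x hx) ?_ (fun x hx => ?_) x trivial
    · have h4 := (hzar i).conj (G_le L hδ)
      intro β hβ
      refine h4 β fun x hx => ?_
      have h5 := hβ x hx
      have e : (δ * γ⁻¹) * R x * (δ * γ⁻¹)⁻¹ = δ * r i x * δ⁻¹ := by
        rw [h1 x (hle i hx)]
        group
      simp only [e] at h5
      exact h5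
    · show R' x = (δ * γ⁻¹) * R x * (δ * γ⁻¹)⁻¹
      rw [← h2 x hx, h1 x (hle i hx)]
      group

end Pool.Agent.Results.MP_666dc0_nt.SimplyConnectedDescent
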